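import Mathlib
import Pool.Agent.H437R2.Man.MWWeak

set_option autoImplicit false

/-! Job 139 (project QT): quantitative weak Mordell-Weil. -/

open WeierstrassCurve IsDedekindDomain NumberField
open scoped nonZeroDivisors

namespace Pool.Agent.Y155.QT14

open Pool.Agent.H437R2.Man.MW

/-- quantitative form of `ideal_half`. -/
lemma ideal_half' {K : Type} [Field K] [NumberField K]
    (S : Set (HeightOneSpectrum (𝓞 K))) (hS : S.Finite) :
    ∃ D : Finset (Ideal (𝓞 K)), D.card ≤ 2 ^ S.ncard ∧ ∀ I : Ideal (𝓞 K), I ≠ 0 →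
      (∀ v : HeightOneSpectrum (𝓞 K), v ∉ S →
        Even ((UniqueFactorizationMonoid.normalizedFactors I).count v.asIdeal)) →
      ∃ d ∈ D, ∃ J : Ideal (𝓞 K), J ≠ 0 ∧ I = J ^ 2 * d := by
  classical
  set S' : Finset (Ideal (𝓞 K)) := hS.toFinset.image (fun v => v.asIdeal) with hS'
  refine ⟨S'.powerset.image (fun s => ∏ x ∈ s, x), ?_, fun I hI hev => ?_⟩
  · calc _ ≤ S'.powerset.card := Finset.card_image_le
      _ = 2 ^ S'.card := Finset.card_powerset _
      _ ≤ 2 ^ S.ncard := by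
          apply Nat.pow_le_pow_right (by norm_num)
          rw [Set.ncard_eq_toFinset_card S hS]
          exact Finset.card_image_le
  obtain ⟨t, d, hs, hd⟩ := multiset_half (UniqueFactorizationMonoid.normalizedFactors I)
  have hdS : ∀ p ∈ d, p ∈ S' := by
    intro p hp
    have hpI : p ∈ UniqueFactorizationMonoid.normalizedFactors I := by
      rw [hs]; exact Multiset.mem_add.mpr (Or.inr hp)
    have hpp : Prime p := UniqueFactorizationMonoid.prime_of_normalized_factor p hpI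
    let v : HeightOneSpectrum (𝓞 K) := ⟨p, Ideal.isPrime_of_prime hpp, hpp.ne_zero⟩
    by_contra hn
    have hv : v ∉ S := by
      intro hv
      apply hn
      rw [hS', Finset.mem_image]
      exact ⟨v, by simpa using hv, rfl⟩
    have h1 := hev v hv
    rw [hs] at h1
    have h2 : Multiset.count p d = 1 := Multiset.count_eq_one_of_mem hd hp
    have h3 : Multiset.count v.asIdeal (t + t + d) = 2 * Multiset.count p t + 1 := by
      change Multiset.count p (t + t + d) = _
      rw [Multiset.count_add, Multiset.count_add, h2]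
      ring
    rw [h3] at h1
    exact (Nat.not_even_iff_odd.mpr ⟨_, rfl⟩) h1
  refine ⟨d.prod, ?_, t.prod, ?_, ?_⟩
  · rw [Finset.mem_image]
    refine ⟨d.toFinset, ?_, ?_⟩
    · rw [Finset.mem_powerset]
      intro p hp
      exact hdS p (Multiset.mem_toFinset.mp hp)
    · rw [Finset.prod, Multiset.toFinset_val, Multiset.dedup_eq_self.mpr hd]
      simp
  · intro h0
    rw [Multiset.prod_eq_zero_iff] at h0
    have : (0 : Ideal (𝓞 K)) ∈ UniqueFactorizationMonoid.normalizedFactors I := by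
      rw [hs]; exact Multiset.mem_add.mpr (Or.inl (Multiset.mem_add.mpr (Or.inl h0)))
    exact (UniqueFactorizationMonoid.prime_of_normalized_factor _ this).ne_zero rfl
  · have h2 : (UniqueFactorizationMonoid.normalizedFactors I).prod = I := by
      have := UniqueFactorizationMonoid.prod_normalizedFactors hI
      exact associated_iff_eq.mp this
    conv_lhs => rw [← h2, hs]
    rw [Multiset.prod_add, Multiset.prod_add]
    ring

/-- quantitative form of `sel_int`. -/
lemma sel_int' (K : Type) [Field K] [NumberField K] :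
    ∃ A : ℕ, ∀ S : Set (HeightOneSpectrum (𝓞 K)), S.Finite →
    ∃ T : Finset (𝓞 K), T.card ≤ A * 2 ^ S.ncard ∧ (∀ t ∈ T, t ≠ 0) ∧ ∀ a : 𝓞 K, a ≠ 0 →
      (∀ v : HeightOneSpectrum (𝓞 K), v ∉ S →
        Even ((UniqueFactorizationMonoid.normalizedFactors (Ideal.span {a})).count v.asIdeal)) →
      ∃ t ∈ T, ∃ x y : 𝓞 K, x ≠ 0 ∧ y ≠ 0 ∧ x ^ 2 * a = t * y ^ 2 := by
  classical
  obtain ⟨U, hU⟩ := units_sq K
  refine ⟨(Finset.univ : Finset (ClassGroup (𝓞 K))).card * U.card, fun S hS => ?_⟩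
  obtain ⟨D, hDc, hD⟩ := ideal_half' S hS
  -- the relation between integers and (ideal, class)
  let Rel : Ideal (𝓞 K) × ClassGroup (𝓞 K) → 𝓞 K → Prop := fun c a =>
    a ≠ 0 ∧ ∃ J : (Ideal (𝓞 K))⁰, Ideal.span {a} = (J : Ideal (𝓞 K)) ^ 2 * c.1 ∧
      ClassGroup.mk0 J = c.2
  let rep : Ideal (𝓞 K) × ClassGroup (𝓞 K) → 𝓞 K := fun c =>
    if h : ∃ a, Rel c a then Classical.choose h else 1
  have hrep0 : ∀ c, rep c ≠ 0 := by
    intro c
    simp only [rep]
    split_ifs with h
    · exact (Classical.choose_spec h).1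
    · exact one_ne_zero
  let T : Finset (𝓞 K) := ((D ×ˢ (Finset.univ : Finset (ClassGroup (𝓞 K)))) ×ˢ U).image
    (fun c => rep c.1 * (c.2 : 𝓞 K))
  refine ⟨T, ?_, ?_, ?_⟩
  · calc T.card ≤ ((D ×ˢ (Finset.univ : Finset (ClassGroup (𝓞 K)))) ×ˢ U).card :=
          Finset.card_image_le
      _ = D.card * (Finset.univ : Finset (ClassGroup (𝓞 K))).card * U.card := by
          rw [Finset.card_product, Finset.card_product]
      _ ≤ 2 ^ S.ncard * (Finset.univ : Finset (ClassGroup (𝓞 K))).card * U.card := by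
          gcongr
      _ = _ := by ring
  · intro t ht
    simp only [T, Finset.mem_image] at ht
    obtain ⟨c, -, rfl⟩ := ht
    exact mul_ne_zero (hrep0 _) (Units.ne_zero _)
  · intro a ha hev
    have hI : Ideal.span {a} ≠ (0 : Ideal (𝓞 K)) := by simpa using ha
    obtain ⟨d, hd, J, hJ, hIJ⟩ := hD _ hI hev
    set J' : (Ideal (𝓞 K))⁰ := ⟨J, mem_nonZeroDivisors_iff_ne_zero.mpr hJ⟩ with hJ'
    have hR : Rel (d, ClassGroup.mk0 J') a := ⟨ha, J', hIJ, rfl⟩
    have hex : ∃ a, Rel (d, ClassGroup.mk0 J') a := ⟨a, hR⟩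
    have hrepe : rep (d, ClassGroup.mk0 J') = Classical.choose hex := by
      simp only [rep]
      rw [dif_pos hex]
    obtain ⟨hb0, J2, hJ2, hcl⟩ := Classical.choose_spec hex
    rw [← hrepe] at hb0 hJ2
    set b := rep (d, ClassGroup.mk0 J') with hb
    obtain ⟨x, y, hx, hy, hxy⟩ := ClassGroup.mk0_eq_mk0_iff.mp hcl
    -- x J2 = y J
    have h1 : Ideal.span {y ^ 2 * a} = Ideal.span {x ^ 2 * b} := by
      rw [← Ideal.span_singleton_mul_span_singleton, ← Ideal.span_singleton_mul_span_singleton,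
        ← Ideal.span_singleton_pow, ← Ideal.span_singleton_pow, hIJ, hJ2]
      have h2 : (Ideal.span {y} * (J' : Ideal (𝓞 K))) = Ideal.span {x} * (J2 : Ideal (𝓞 K)) :=
        hxy.symm
      calc Ideal.span {y} ^ 2 * (J ^ 2 * d) = (Ideal.span {y} * J) ^ 2 * d := by ring
        _ = (Ideal.span {x} * (J2 : Ideal (𝓞 K))) ^ 2 * d := by rw [← h2]
        _ = _ := by ring
    rw [Ideal.span_singleton_eq_span_singleton] at h1
    obtain ⟨u, hu⟩ := h1.symm
    obtain ⟨t, ht, w, hw⟩ := hU u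
    refine ⟨b * (t : 𝓞 K), ?_, y, x * (w : 𝓞 K), hy, mul_ne_zero hx (Units.ne_zero _), ?_⟩
    · simp only [T, Finset.mem_image]
      refine ⟨((d, ClassGroup.mk0 J'), t), ?_, rfl⟩
      simp only [Finset.mem_product, Finset.mem_univ, and_true]
      exact ⟨hd, ht⟩
    · rw [← hu, hw]
      push_cast
      ring

/-- quantitative form of `sel_finite`. -/
theorem sel_finite' (K : Type) [Field K] [NumberField K] :
    ∃ A : ℕ, ∀ S : Set (HeightOneSpectrum (𝓞 K)), S.Finite →
    ∃ T : Finset K, T.card ≤ A * 2 ^ S.ncard ∧ (∀ t ∈ T, t ≠ 0) ∧ ∀ a : Kˣ,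
      (∀ v : HeightOneSpectrum (𝓞 K), v ∉ S →
        Even (Multiplicative.toAdd (v.valuationOfNeZero a))) →
      ∃ t ∈ T, ∃ b : K, b ≠ 0 ∧ (a : K) = t * b ^ 2 := by
  classical
  obtain ⟨A, hA⟩ := sel_int' K
  refine ⟨A, fun S hS => ?_⟩
  obtain ⟨T, hTc, hT0, hT⟩ := hA S hS
  refine ⟨T.image (fun t => algebraMap (𝓞 K) K t), Finset.card_image_le.trans hTc, ?_, ?_⟩
  · intro t ht
    obtain ⟨s, hs, rfl⟩ := Finset.mem_image.mp ht
    simpa using hT0 s hs
  · intro a hev
    obtain ⟨p, q, hq, hpq⟩ := IsFractionRing.div_surjective (A := 𝓞 K) (a : K)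
    have hq0 : q ≠ 0 := nonZeroDivisors.ne_zero hq
    have hqK : algebraMap (𝓞 K) K q ≠ 0 := by simpa using hq0
    have hp0 : p ≠ 0 := by
      rintro rfl
      rw [map_zero, zero_div] at hpq
      exact a.ne_zero hpq.symm
    have hpqK : algebraMap (𝓞 K) K (p * q) ≠ 0 := by
      simpa using ⟨hp0, hq0⟩
    obtain ⟨t, ht, x, y, hx, hy, hxy⟩ := hT (p * q) (mul_ne_zero hp0 hq0) (by
      intro v hv
      have h1 := val_int v (p * q) (mul_ne_zero hp0 hq0) (Units.mk0 _ hpqK) rfl
      have h2 : Units.mk0 _ hpqK = a * (Units.mk0 _ hqK) ^ 2 := by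
        apply Units.ext
        rw [Units.val_mul, Units.val_pow_eq_pow_val, Units.val_mk0, Units.val_mk0, ← hpq, map_mul]
        field_simp
      rw [h2, map_mul, map_pow, toAdd_mul, toAdd_pow] at h1
      have h3 : Even (-((UniqueFactorizationMonoid.normalizedFactors
          (Ideal.span {p * q})).count v.asIdeal : ℤ)) := by
        rw [← h1]
        refine (hev v hv).add ?_
        rw [nsmul_eq_mul]
        exact (even_two.mul_right _)
      rw [even_neg] at h3
      exact_mod_cast h3)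
    have hxK : algebraMap (𝓞 K) K x ≠ 0 := by simpa using hx
    have hyK : algebraMap (𝓞 K) K y ≠ 0 := by simpa using hy
    refine ⟨algebraMap (𝓞 K) K t, Finset.mem_image_of_mem _ ht,
      algebraMap (𝓞 K) K y / (algebraMap (𝓞 K) K x * algebraMap (𝓞 K) K q),
      div_ne_zero hyK (mul_ne_zero hxK hqK), ?_⟩
    have h4 := congrArg (algebraMap (𝓞 K) K) hxy
    simp only [map_mul, map_pow] at h4
    rw [← hpq]
    field_simp
    linear_combination h4

/-- the set of primes where the differences of `e1, e2, e3` are not units. -/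
def badS {K : Type} [Field K] [NumberField K] (e1 e2 e3 : K) : Set (HeightOneSpectrum (𝓞 K)) :=
  {v | v.valuation K (e1 - e2) ≠ 1} ∪
    {v | v.valuation K (e1 - e3) ≠ 1} ∪ {v | v.valuation K (e2 - e3) ≠ 1}

lemma badS_finite {K : Type} [Field K] [NumberField K] {e1 e2 e3 : K}
    (h12 : e1 ≠ e2) (h13 : e1 ≠ e3) (h23 : e2 ≠ e3) : (badS e1 e2 e3).Finite :=
  ((finite_val_ne_one _ (sub_ne_zero.mpr h12)).union
    (finite_val_ne_one _ (sub_ne_zero.mpr h13))).union (finite_val_ne_one _ (sub_ne_zero.mpr h23))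

/-- quantitative form of `crv_class`, with pairs. -/
lemma crv_class' (K : Type) [Field K] [NumberField K] :
    ∃ A : ℕ, ∀ e1 e2 e3 : K, e1 ≠ e2 → e1 ≠ e3 → e2 ≠ e3 →
    ∃ T : Finset K, T.card ≤ A * 2 ^ (badS e1 e2 e3).ncard ∧ (∀ t ∈ T, t ≠ 0) ∧
      ∀ x y : K, y ≠ 0 →
      y ^ 2 = (x + e1) * (x + e2) * (x + e3) →
      ∃ t1 ∈ T, ∃ t2 ∈ T, ∃ r1 r2 r3 : K, r1 ≠ 0 ∧ r2 ≠ 0 ∧ r3 ≠ 0 ∧
        x + e1 = t1 * r1 ^ 2 ∧ x + e2 = t2 * r2 ^ 2 ∧ x + e3 = (t1 * t2) * r3 ^ 2 := by
  obtain ⟨A, hA⟩ := sel_finite' K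
  refine ⟨A, fun e1 e2 e3 h12 h13 h23 => ?_⟩
  have h12' := sub_ne_zero.mpr h12
  have h13' := sub_ne_zero.mpr h13
  have h23' := sub_ne_zero.mpr h23
  obtain ⟨T, hTc, hT0, hT⟩ := hA (badS e1 e2 e3) (badS_finite h12 h13 h23)
  refine ⟨T, hTc, hT0, fun x y hy hxy => ?_⟩
  have hprod : (x + e1) * (x + e2) * (x + e3) ≠ 0 := by
    rw [← hxy]; exact pow_ne_zero _ hy
  have ha : x + e1 ≠ 0 := fun h => hprod (by rw [h]; ring)
  have hb : x + e2 ≠ 0 := fun h => hprod (by rw [h]; ring)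
  have hc : x + e3 ≠ 0 := fun h => hprod (by rw [h]; ring)
  have hvS : ∀ v : HeightOneSpectrum (𝓞 K), v ∉ badS e1 e2 e3 → v.valuation K (e1 - e2) = 1 ∧
      v.valuation K (e1 - e3) = 1 ∧ v.valuation K (e2 - e3) = 1 := by
    intro v hv
    simp only [badS, Set.mem_union, not_or] at hv
    exact ⟨not_not.mp hv.1.1, not_not.mp hv.1.2, not_not.mp hv.2⟩
  obtain ⟨t1, ht1, r1, hr1, w1⟩ := hT (Units.mk0 _ ha) (by
    intro v hv
    obtain ⟨v1, v2, v3⟩ := hvS v hv
    apply even_ord v (Units.mk0 _ ha) (Units.mk0 _ hb) (Units.mk0 _ hc) (Units.mk0 _ hy)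
    · apply Units.ext; simp [hxy]
    · simp only [Units.val_mk0]
      rw [← v1, ← Valuation.map_neg]; congr 1; ring
    · simp only [Units.val_mk0]
      rw [← v2, ← Valuation.map_neg]; congr 1; ring)
  obtain ⟨t2, ht2, r2, hr2, w2⟩ := hT (Units.mk0 _ hb) (by
    intro v hv
    obtain ⟨v1, v2, v3⟩ := hvS v hv
    apply even_ord v (Units.mk0 _ hb) (Units.mk0 _ ha) (Units.mk0 _ hc) (Units.mk0 _ hy)
    · apply Units.ext
      simp only [Units.val_mul, Units.val_pow_eq_pow_val, Units.val_mk0]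
      rw [hxy]; ring
    · simp only [Units.val_mk0]
      rw [← v1]; congr 1; ring
    · simp only [Units.val_mk0]
      rw [← v3, ← Valuation.map_neg]; congr 1; ring)
  simp only [Units.val_mk0] at w1 w2
  have n1 := hT0 t1 ht1
  have n2 := hT0 t2 ht2
  refine ⟨t1, ht1, t2, ht2, r1, r2, y / (t1 * t2 * r1 * r2), hr1, hr2,
    div_ne_zero hy (mul_ne_zero (mul_ne_zero (mul_ne_zero n1 n2) hr1) hr2), w1, w2, ?_⟩
  rw [div_pow, hxy, w1, w2]
  field_simp

theorem descent_set' (K : Type) [Field K] [NumberField K] [DecidableEq K] :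
    ∃ A : ℕ, ∀ e1 e2 e3 : K, e1 ≠ e2 → e1 ≠ e3 → e2 ≠ e3 →
    ∃ U : Finset (Pt e1 e2 e3), U.card ≤ (A * 2 ^ (badS e1 e2 e3).ncard) ^ 2 + 4 ∧
      ∀ P : Pt e1 e2 e3, ∃ u ∈ U, ∃ Q : Pt e1 e2 e3, P = u + (Q + Q) := by
  obtain ⟨A, hA⟩ := crv_class' K
  refine ⟨A, fun e1 e2 e3 q12 q13 q23 => ?_⟩
  obtain ⟨T0, hTc, hT0, hT⟩ := hA e1 e2 e3 q12 q13 q23
  let T : Finset (K × K) := T0 ×ˢ T0
  classical
  let rep : K × K → Pt e1 e2 e3 := fun c =>
    if h : ∃ P, Cl e1 e2 e3 (c.1, c.2, c.1 * c.2) P then -(Classical.choose h) else 0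
  have hT1 : (crv e1 e2 e3).toAffine.Nonsingular (-e1) 0 := by
    apply crv_nonsing q12 q13 q23; ring
  have hT2 : (crv e1 e2 e3).toAffine.Nonsingular (-e2) 0 := by
    apply crv_nonsing q12 q13 q23; ring
  have hT3 : (crv e1 e2 e3).toAffine.Nonsingular (-e3) 0 := by
    apply crv_nonsing q12 q13 q23; ring
  let S : Finset (Pt e1 e2 e3) :=
    {0, Affine.Point.some _ _ hT1, Affine.Point.some _ _ hT2, Affine.Point.some _ _ hT3}
  refine ⟨T.image rep ∪ S, ?_, fun P => ?_⟩
  · refine (Finset.card_union_le _ _).trans (Nat.add_le_add ?_ Finset.card_le_four)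
    calc (T.image rep).card ≤ T.card := Finset.card_image_le
      _ = T0.card * T0.card := Finset.card_product _ _
      _ ≤ (A * 2 ^ (badS e1 e2 e3).ncard) ^ 2 := by
          rw [pow_two (A * _)]
          exact Nat.mul_le_mul hTc hTc
  match P with
  | 0 =>
    refine ⟨0, ?_, 0, by simp⟩
    apply Finset.mem_union_right
    simp [S]
  | .some x y h =>
    have q := crv_eqn.mp h.1
    by_cases hy : y = 0
    · subst hy
      have hq : (x + e1) * (x + e2) * (x + e3) = 0 := by rw [← q]; ring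
      rcases mul_eq_zero.mp hq with hq' | hq'
      · rcases mul_eq_zero.mp hq' with hq'' | hq''
        · have hx : x = -e1 := by linear_combination hq''
          subst hx
          refine ⟨Affine.Point.some _ _ hT1, ?_, 0, by simp⟩
          apply Finset.mem_union_right
          simp [S]
        · have hx : x = -e2 := by linear_combination hq''
          subst hx
          refine ⟨Affine.Point.some _ _ hT2, ?_, 0, by simp⟩
          apply Finset.mem_union_right
          simp [S]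
      · have hx : x = -e3 := by linear_combination hq'
        subst hx
        refine ⟨Affine.Point.some _ _ hT3, ?_, 0, by simp⟩
        apply Finset.mem_union_right
        simp [S]
    · obtain ⟨c1, d1, c2, d2, r1, r2, r3, m1, m2, m3, w1, w2, w3⟩ := hT x y hy q
      have hcl : Cl e1 e2 e3 (c1, c2, c1 * c2) (Affine.Point.some x y h) :=
        ⟨x, y, h, rfl, r1, r2, r3, m1, m2, m3, w1, w2, w3⟩
      have hex : ∃ P, Cl e1 e2 e3 (c1, c2, c1 * c2) P := ⟨_, hcl⟩
      have hrep : rep (c1, c2) = -(Classical.choose hex) := by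
        simp only [rep]
        rw [dif_pos hex]
      have hspec := Classical.choose_spec hex
      set R := Classical.choose hex with hR
      obtain ⟨x', y', h', hR', r1', r2', r3', m1', m2', m3', w1', w2', w3'⟩ := hspec
      have n1 := hT0 c1 d1
      have n2 := hT0 c2 d2
      have n3 : c1 * c2 ≠ 0 := mul_ne_zero n1 n2
      obtain ⟨Q, hQ⟩ := add_double (r1 := c1 * r1 * r1') (r2 := c2 * r2 * r2')
        (r3 := (c1 * c2) * r3 * r3')
        q12 q13 q23 h h'
        (mul_ne_zero (mul_ne_zero n1 m1) m1')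
        (mul_ne_zero (mul_ne_zero n2 m2) m2')
        (mul_ne_zero (mul_ne_zero n3 m3) m3')
        (by rw [w1, w1']; ring) (by rw [w2, w2']; ring) (by rw [w3, w3']; ring)
      refine ⟨rep (c1, c2), ?_, Q, ?_⟩
      · apply Finset.mem_union_left
        apply Finset.mem_image_of_mem
        simp only [T, Finset.mem_product]
        exact ⟨d1, d2⟩
      · rw [hrep, hQ, ← hR']
        abel

end Pool.Agent.Y155.QT14
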