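import Mathlib

set_option autoImplicit false

/-! Job 139 (project QT): auxiliary facts (ranks of abelian groups, primes dividing an integer,
degree of the splitting field of a cubic). -/

open IsDedekindDomain NumberField Polynomial

namespace Pool.Agent.Y155.QT14

/-- a finitely generated abelian group `G` with `G / 2G` covered by `U` has rank at most
`log₂ |U|`. -/
lemma two_pow_finrank_le (G : Type) [AddCommGroup G] (hG : AddGroup.FG G) (U : Finset G)
    (hU : ∀ P : G, ∃ u ∈ U, ∃ Q : G, P = u + (Q + Q)) : 2 ^ Module.finrank ℤ G ≤ U.card := by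
  classical
  rw [← Module.Finite.iff_addGroup_fg] at hG
  have hr : Module.finrank ℤ (G ⧸ Submodule.torsion ℤ G) = Module.finrank ℤ G :=
    finrank_quotient_eq_of_le_torsion le_rfl
  have : Module.Finite ℤ (G ⧸ Submodule.torsion ℤ G) := inferInstance
  have : Module.Free ℤ (G ⧸ Submodule.torsion ℤ G) := inferInstance
  let b := Module.finBasis ℤ (G ⧸ Submodule.torsion ℤ G)
  let φ : G → (Fin (Module.finrank ℤ (G ⧸ Submodule.torsion ℤ G)) → ZMod 2) :=
    fun P i => ((b.repr ((Submodule.torsion ℤ G).mkQ P) i : ℤ) : ZMod 2)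
  have hφ : ∀ v, ∃ u ∈ U, φ u = v := by
    intro v
    choose w hw using fun i => ZMod.intCast_surjective (v i)
    obtain ⟨P, hP⟩ := (Submodule.torsion ℤ G).mkQ_surjective (b.equivFun.symm w)
    obtain ⟨u, hu, Q, hQ⟩ := hU P
    refine ⟨u, hu, ?_⟩
    have h1 : φ P = v := by
      funext i
      simp only [φ]
      rw [hP, ← hw i]
      congr 1
      have := congrFun (b.equivFun.apply_symm_apply w) i
      rw [Module.Basis.equivFun_apply] at this
      exact this
    rw [← h1]
    funext i
    simp only [φ]
    rw [hQ, map_add, map_add, map_add, map_add, Finsupp.add_apply, Finsupp.add_apply]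
    push_cast
    rw [CharTwo.add_self_eq_zero, add_zero]
  have h2 : (Finset.univ : Finset (Fin (Module.finrank ℤ (G ⧸ Submodule.torsion ℤ G)) → ZMod 2)).card
      ≤ U.card := by
    apply Finset.card_le_card_of_surjOn φ
    intro v _
    obtain ⟨u, hu, huv⟩ := hφ v
    exact ⟨u, hu, huv⟩
  rw [Finset.card_univ, Fintype.card_fun, ZMod.card, Fintype.card_fin, hr] at h2
  exact h2

set_option linter.deprecated false in
/-- the number of primes of `K` above the rational primes dividing `d`. -/
lemma ncard_val_ne_one_le (K : Type) [Field K] [NumberField K] (d : ℤ) (hd : d ≠ 0) :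
    {v : HeightOneSpectrum (𝓞 K) | v.valuation K (d : K) ≠ 1}.ncard ≤
      Module.finrank ℚ K * d.natAbs.primeFactors.card := by
  classical
  -- the primes above `p`
  let f : ℕ → Finset (Ideal (𝓞 K)) := fun p => IsDedekindDomain.primesOverFinset (Ideal.span {(p : ℤ)}) (𝓞 K)
  have hcard : ∀ p ∈ d.natAbs.primeFactors, (f p).card ≤ Module.finrank ℚ K := by
    intro p hp
    have hp' : p.Prime := Nat.prime_of_mem_primeFactors hp
    have : Fact p.Prime := ⟨hp'⟩
    have : (Ideal.span {(p : ℤ)}).IsMaximal := Int.ideal_span_isMaximal_of_prime p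
    exact Ideal.card_primesOverFinset_le_finrank (𝓞 K) ℚ K (by
      rw [Ne, Ideal.span_singleton_eq_bot]
      exact_mod_cast hp'.ne_zero)
  have hmem : ∀ v : HeightOneSpectrum (𝓞 K), v.valuation K (d : K) ≠ 1 →
      v.asIdeal ∈ d.natAbs.primeFactors.biUnion f := by
    intro v hv
    have h1 : v.valuation K (d : K) = v.intValuation ((d : ℤ) : 𝓞 K) := by
      rw [← v.valuation_of_algebraMap (K := K)]
      congr 1
    have h2 : v.intValuation ((d : ℤ) : 𝓞 K) < 1 := lt_of_le_of_ne (v.intValuation_le_one _) (by
      rw [← h1]; exact hv)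
    rw [v.intValuation_lt_one_iff_mem] at h2
    have hnat : ((d.natAbs : ℕ) : 𝓞 K) ∈ v.asIdeal := by
      rcases Int.natAbs_eq d with h | h
      · have e : ((d.natAbs : ℕ) : 𝓞 K) = ((d : ℤ) : 𝓞 K) := by
          conv_rhs => rw [h]
          rw [Int.cast_natCast]
        rw [e]; exact h2
      · have e : ((d.natAbs : ℕ) : 𝓞 K) = -((d : ℤ) : 𝓞 K) := by
          conv_rhs => rw [h]
          rw [Int.cast_neg, Int.cast_natCast, neg_neg]
        rw [e]; exact v.asIdeal.neg_mem h2
    -- some prime factor of `d` lies in `v`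
    have hprod : ∀ n : ℕ, n ≠ 0 → (n : 𝓞 K) ∈ v.asIdeal → ∃ p ∈ n.primeFactors, (p : 𝓞 K) ∈ v.asIdeal := by
      intro n
      induction n using Nat.recOnMul with
      | zero => intro h; exact absurd rfl h
      | one =>
        intro _ h
        exact absurd ((Ideal.eq_top_iff_one _).mpr (by simpa using h)) v.isPrime.ne_top
      | prime p hp => 
        intro _ h
        exact ⟨p, by simp [hp.primeFactors], h⟩
      | mul a b iha ihb =>
        intro hab h
        have ha : a ≠ 0 := left_ne_zero_of_mul hab
        have hb : b ≠ 0 := right_ne_zero_of_mul hab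
        push_cast at h
        rcases v.isPrime.mem_or_mem h with h | h
        · obtain ⟨p, hp, hp'⟩ := iha ha h
          refine ⟨p, ?_, hp'⟩
          rw [Nat.primeFactors_mul ha hb]
          exact Finset.mem_union_left _ hp
        · obtain ⟨p, hp, hp'⟩ := ihb hb h
          refine ⟨p, ?_, hp'⟩
          rw [Nat.primeFactors_mul ha hb]
          exact Finset.mem_union_right _ hp
    obtain ⟨p, hp, hpv⟩ := hprod d.natAbs (by simpa using hd) hnat
    have hp' : p.Prime := Nat.prime_of_mem_primeFactors hp
    rw [Finset.mem_biUnion]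
    refine ⟨p, hp, ?_⟩
    have : Fact p.Prime := ⟨hp'⟩
    have hmax : (Ideal.span {(p : ℤ)}).IsMaximal := Int.ideal_span_isMaximal_of_prime p
    have hp0 : (Ideal.span {(p : ℤ)}) ≠ ⊥ := by
      rw [Ne, Ideal.span_singleton_eq_bot]
      exact_mod_cast hp'.ne_zero
    rw [IsDedekindDomain.mem_primesOverFinset_iff hp0]
    refine ⟨v.isPrime, ⟨?_⟩⟩
    apply hmax.eq_of_le
    · exact (Ideal.comap_ne_top _ v.isPrime.ne_top)
    · rw [Ideal.span_singleton_le_iff_mem, Ideal.mem_comap]
      simpa using hpv
  have hle : {v : HeightOneSpectrum (𝓞 K) | v.valuation K (d : K) ≠ 1}.ncard ≤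
      (d.natAbs.primeFactors.biUnion f).card := by
    rw [← Set.ncard_coe_finset]
    apply Set.ncard_le_ncard_of_injOn (fun v => v.asIdeal)
    · intro v hv
      exact_mod_cast hmem v hv
    · intro v _ w _ h
      exact HeightOneSpectrum.ext h
  calc _ ≤ (d.natAbs.primeFactors.biUnion f).card := hle
    _ ≤ ∑ p ∈ d.natAbs.primeFactors, (f p).card := Finset.card_biUnion_le
    _ ≤ ∑ p ∈ d.natAbs.primeFactors, Module.finrank ℚ K := Finset.sum_le_sum hcard
    _ = _ := by rw [Finset.sum_const, smul_eq_mul, mul_comm]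

/-- the degree of the splitting field of a cubic. -/
lemma finrank_splitting_le (P : ℚ[X]) (hP : P.Separable) (hd : P.natDegree ≤ 3) :
    Module.finrank ℚ P.SplittingField ≤ 6 := by
  classical
  rw [← Gal.card_of_separable hP]
  have : Fact ((P.map (algebraMap ℚ P.SplittingField)).Splits) := ⟨SplittingField.splits P⟩
  have h1 := Nat.card_le_card_of_injective _ (Gal.galActionHom_injective P P.SplittingField)
  refine h1.trans ?_
  rw [Nat.card_eq_fintype_card, Fintype.card_perm]
  have h2 : Fintype.card (P.rootSet P.SplittingField) ≤ 3 := by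
    rw [← Nat.card_eq_fintype_card, Nat.card_coe_set_eq]
    exact (Polynomial.ncard_rootSet_le P P.SplittingField).trans hd
  calc (Fintype.card (P.rootSet P.SplittingField)).factorial ≤ (3).factorial :=
        Nat.factorial_le h2
    _ = 6 := by decide

end Pool.Agent.Y155.QT14
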