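import Mathlib
import Pool.Agent.Y155.QT14a
import Pool.Agent.Y155.QT14b
import Pool.Agent.Y19.QT.Forms

set_option autoImplicit false

/-! Job 139 (project QT): the ranks of the quadratic twists of an elliptic curve over `ℚ` are
bounded in terms of the number of prime divisors of the twisting parameter. -/

open WeierstrassCurve IsDedekindDomain NumberField Polynomial

namespace Pool.Agent.Y155.QT14

open Pool.Agent.H437R2.Man.MW Pool.Agent.Y19.QT

/-- transport along an equality of curves -/
lemma finrank_of_eq {K : Type} [Field K] [DecidableEq K] {W W' : WeierstrassCurve.Affine K}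
    (h : W = W') : Module.finrank ℤ W.Point = Module.finrank ℤ W'.Point := by
  subst h
  rfl

/-- transport along an equality of curves -/
lemma fg_of_eq {K : Type} [Field K] [DecidableEq K] {W W' : WeierstrassCurve.Affine K}
    (h : W = W') (hW : AddGroup.FG W.Point) : AddGroup.FG W'.Point := by
  subst h
  exact hW

/-- the rank of a subgroup of a finitely generated abelian group -/
lemma finrank_le_of_inj {A B : Type} [AddCommGroup A] [AddCommGroup B] (f : A →+ B)
    (hf : Function.Injective f) (hB : AddGroup.FG B) :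
    Module.finrank ℤ A ≤ Module.finrank ℤ B := by
  rw [← Module.Finite.iff_addGroup_fg] at hB
  exact LinearMap.finrank_le_finrank_of_injective (f := f.toIntLinearMap) hf

lemma badS_smul {K : Type} [Field K] [NumberField K] (d e1 e2 e3 : K) :
    badS (d * e1) (d * e2) (d * e3) ⊆ badS e1 e2 e3 ∪ {v | v.valuation K d ≠ 1} := by
  intro v hv
  by_contra hn
  simp only [badS, Set.mem_union, not_or, Set.mem_ofPred_eq, not_not] at hv hn
  obtain ⟨⟨⟨h1, h2⟩, h3⟩, h4⟩ := hn
  rcases hv with (hv | hv) | hv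
  · apply hv; rw [← mul_sub, map_mul, h4, h1, one_mul]
  · apply hv; rw [← mul_sub, map_mul, h4, h2, one_mul]
  · apply hv; rw [← mul_sub, map_mul, h4, h3, one_mul]

/-- the curve `y² = x³ + a x + b` -/
abbrev EC (a b : ℤ) : WeierstrassCurve ℚ :=
  { a₁ := 0, a₂ := 0, a₃ := 0, a₄ := (a : ℚ), a₆ := (b : ℚ) }

/-- T14: a bound for the rank of the quadratic twists -/
theorem T14 (a b : ℤ) (hab : 4 * a ^ 3 + 27 * b ^ 2 ≠ 0) : ∃ C : ℕ, ∀ d : ℤ, d ≠ 0 →
    Module.finrank ℤ (EQ (a * d ^ 2) (b * d ^ 3)) ≤ C + 12 * d.natAbs.primeFactors.card := by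
  classical
  let P : Cubic ℚ := ⟨1, 0, (a : ℚ), (b : ℚ)⟩
  let K : Type := P.toPoly.SplittingField
  have : NumberField K :=
    { to_charZero := inferInstanceAs (CharZero P.toPoly.SplittingField)
      to_finiteDimensional := inferInstanceAs (FiniteDimensional ℚ P.toPoly.SplittingField) }
  have ha : P.a ≠ 0 := one_ne_zero
  have hsp : Splits (P.toPoly.map (algebraMap ℚ K)) := SplittingField.splits P.toPoly
  obtain ⟨x, y, z, h3⟩ := (Cubic.splits_iff_roots_eq_three ha).1 hsp
  have hdisc : P.discr ≠ 0 := by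
    have h : P.discr = -(4 * (a : ℚ) ^ 3 + 27 * (b : ℚ) ^ 2) := by
      simp only [Cubic.discr, P]
      ring
    rw [h, neg_ne_zero]
    exact_mod_cast hab
  obtain ⟨hxy, hxz, hyz⟩ := (Cubic.discr_ne_zero_iff_roots_ne ha h3).1 hdisc
  have hb := Cubic.b_eq_three_roots ha h3
  have hc := Cubic.c_eq_three_roots ha h3
  have hd := Cubic.d_eq_three_roots ha h3
  simp only [P, map_one, map_zero, one_mul] at hb hc hd
  -- the degree of `K`
  have hdeg : Module.finrank ℚ K ≤ 6 := by
    apply finrank_splitting_le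
    · have hnd : (P.toPoly.map (algebraMap ℚ K)).roots.Nodup := by
        have h4 : (P.toPoly.map (algebraMap ℚ K)).roots = {x, y, z} := by
          rw [← Cubic.map_toPoly]
          exact h3
        rw [h4]
        simp [hxy, hxz, hyz]
      exact (Polynomial.nodup_aroots_iff_of_splits (K := K) (Cubic.ne_zero_of_a_ne_zero ha) hsp).mp hnd
    · exact (Cubic.natDegree_of_a_ne_zero ha).le
  obtain ⟨A, hA⟩ := descent_set' K
  set n0 : ℕ := (badS (-x) (-y) (-z)).ncard with hn0
  refine ⟨(A ^ 2 + 4) + 2 * n0, fun d hd0 => ?_⟩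
  have hdK : (d : K) ≠ 0 := by exact_mod_cast hd0
  have q12 : (d : K) * (-x) ≠ (d : K) * (-y) := fun h => hxy (neg_injective (mul_left_cancel₀ hdK h))
  have q13 : (d : K) * (-x) ≠ (d : K) * (-z) := fun h => hxz (neg_injective (mul_left_cancel₀ hdK h))
  have q23 : (d : K) * (-y) ≠ (d : K) * (-z) := fun h => hyz (neg_injective (mul_left_cancel₀ hdK h))
  have hfg := pt_fg q12 q13 q23
  obtain ⟨U, hUc, hU⟩ := hA _ _ _ q12 q13 q23
  have h1 := two_pow_finrank_le _ hfg U hU
  -- the bad primes
  have hbad : (badS ((d : K) * (-x)) ((d : K) * (-y)) ((d : K) * (-z))).ncard ≤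
      n0 + 6 * d.natAbs.primeFactors.card := by
    have hf1 : (badS (-x) (-y) (-z)).Finite := badS_finite (fun h => hxy (neg_injective h))
      (fun h => hxz (neg_injective h)) (fun h => hyz (neg_injective h))
    have hf2 := finite_val_ne_one (d : K) hdK
    calc _ ≤ (badS (-x) (-y) (-z) ∪ {v | v.valuation K (d : K) ≠ 1}).ncard :=
          Set.ncard_le_ncard (badS_smul _ _ _ _) (hf1.union hf2)
      _ ≤ (badS (-x) (-y) (-z)).ncard +
          {v : HeightOneSpectrum (𝓞 K) | v.valuation K (d : K) ≠ 1}.ncard :=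
          Set.ncard_union_le _ _
      _ ≤ n0 + 6 * d.natAbs.primeFactors.card := by
          apply Nat.add_le_add_left
          exact (ncard_val_ne_one_le K d hd0).trans (Nat.mul_le_mul_right _ hdeg)
  set m : ℕ := (badS ((d : K) * (-x)) ((d : K) * (-y)) ((d : K) * (-z))).ncard with hm
  have h2 : 2 ^ Module.finrank ℤ (Pt ((d : K) * (-x)) ((d : K) * (-y)) ((d : K) * (-z))) ≤
      2 ^ ((A ^ 2 + 4) + 2 * n0 + 12 * d.natAbs.primeFactors.card) := by
    calc _ ≤ U.card := h1
      _ ≤ (A * 2 ^ m) ^ 2 + 4 := hUc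
      _ ≤ (A ^ 2 + 4) * 2 ^ (2 * m) := by
          have : 1 ≤ 2 ^ (2 * m) := Nat.one_le_two_pow
          have e : (A * 2 ^ m) ^ 2 = A ^ 2 * 2 ^ (2 * m) := by
            rw [mul_pow, ← pow_mul, mul_comm m 2]
          rw [e, add_mul]
          omega
      _ ≤ 2 ^ (A ^ 2 + 4) * 2 ^ (2 * (n0 + 6 * d.natAbs.primeFactors.card)) := by
          apply Nat.mul_le_mul
          · exact Nat.lt_two_pow_self.le
          · exact Nat.pow_le_pow_right (by norm_num) (Nat.mul_le_mul_left _ hbad)
      _ = _ := by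
          rw [← pow_add]
          congr 1
          ring
  have h3' := (Nat.pow_le_pow_iff_right (by norm_num)).mp h2
  refine le_trans ?_ h3'
  have heq : (crv ((d : K) * (-x)) ((d : K) * (-y)) ((d : K) * (-z))).toAffine =
      ((EC (a * d ^ 2) (b * d ^ 3)).baseChange K) := by
    apply WeierstrassCurve.ext
    · change (0 : K) = algebraMap ℚ K 0
      rw [map_zero]
    · change (d : K) * (-x) + (d : K) * (-y) + (d : K) * (-z) = algebraMap ℚ K 0
      rw [map_zero]
      linear_combination -(d : K) * hb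
    · change (0 : K) = algebraMap ℚ K 0
      rw [map_zero]
    · change (d : K) * (-x) * ((d : K) * (-y)) + (d : K) * (-x) * ((d : K) * (-z)) +
        (d : K) * (-y) * ((d : K) * (-z)) = algebraMap ℚ K ((a * d ^ 2 : ℤ) : ℚ)
      rw [Int.cast_mul, Int.cast_pow, map_mul, map_pow, map_intCast (algebraMap ℚ K) d, hc]
      ring
    · change (d : K) * (-x) * ((d : K) * (-y)) * ((d : K) * (-z)) =
        algebraMap ℚ K ((b * d ^ 3 : ℤ) : ℚ)
      rw [Int.cast_mul, Int.cast_pow, map_mul, map_pow, map_intCast (algebraMap ℚ K) d, hd]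
      ring
  have hinj := WeierstrassCurve.Affine.Point.map_injective
    (W' := EC (a * d ^ 2) (b * d ^ 3)) (Algebra.ofId ℚ K)
  have hle := finrank_le_of_inj _ hinj (fg_of_eq heq hfg)
  refine le_trans ?_ (hle.trans (finrank_of_eq heq).ge)
  exact le_rfl

end Pool.Agent.Y155.QT14
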